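import Pool.Agent.Work.MP_71c844_lc.LSSem

/-!
# Every circuit for 3-SAT has a gate that breaks exponentially many local symmetries

The variables of the 3-SAT instances are `N` disjoint triples of variables and any further variables
`W`.  A local permutation of the variables permutes the variables inside each triple.  The
definitions are in `Pool/Agent/Work/MP_71c844_lc/LSDefs.lean`.

Consider any circuit (of any size) deciding 3-SAT whose gates are threshold gates with arbitrary
real weights and unbounded fan-in (such as AND, OR, NOT, MAJORITY), parity gates with unbounded
fan-in and arbitrary gates with at most `d` inputs.  Then some gate computes a function with at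
least `2 ^ (N / (180 (d + 1)))` different images under the local permutations.
-/

namespace Pool.Agent.Work.MP_71c844_lc.Kept.AsymmetricGates

open Pool.Agent.LocalSym

theorem result (N d s : ℕ) (W : Type) (hd : 0 < d)
    (F : Fin s → ((Fin 3 → ((Fin N × Fin 3) ⊕ W) × Bool) → Bool) → Bool) (hF : IsCircuit d F)
    (out : Fin s) (hout : ∀ x, F out x = true ↔ Sat3 x) :
    ∃ g, 2 ^ (N / (180 * (d + 1))) ≤ (images (F g)).ncard :=
  exists_images hd hF out hout

end Pool.Agent.Work.MP_71c844_lc.Kept.AsymmetricGates
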