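import Pool.Agent.Work.MP_71c844_lc.AV.Rec

namespace Pool.Agent.Results.MP_71c844_lc.CliqueAverage

open Pool.Agent.LayCirc

open Classical in
/-- **Size, patterns and guess bits of circuits for CLIQUE, on average.** Let `2 ≤ v` and
`600 (w + 1) (log₂ v + 1) ^ 4 ≤ k ≤ v / 2`. There is a probability distribution `D` on the graphs on
`v` vertices with the following property. Consider a circuit with fewer than `2 ^ w` gates whose
inputs are the pairs `x` of the `v` vertices and the literals of `a` guess bits `y`, with fan-in-two
AND and OR gates and with arbitrary further gates (of any fan-in, for example NOT gates) that read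
only gates whose values do not depend on the guess. It accepts the graph `x` if it accepts `(x, y)`
for all guesses `y`, and it is right on `x` if it accepts `x` exactly when `x` has a clique on `k`
vertices. Then there is an increasing sequence of graphs such that the number `P` of different values
which the vector of the values of the gates read by NOT gates (by arbitrary gates) takes along the
sequence satisfies
`v ^ 2 (Pr[right] - Pr[wrong]) < 2 ^ 33 * P * (a + w + 1) * (w + 1) ^ 2 * (log₂ v + 1) ^ 7`,
where the graph is chosen according to `D`.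

In particular, if the circuit is always right, `v ^ 2 < 2 ^ 33 * P * (a + w + 1) * ..`. -/
theorem result (v k w : ℕ) (hv : 2 ≤ v)
    (hk : 600 * (w + 1) * (Nat.log 2 v + 1) ^ 4 ≤ k) (hkv : 2 * k ≤ v) :
    ∃ D : (Sym2 (Fin v) → Bool) → ℝ, (∀ x, 0 ≤ D x) ∧ ∑ x, D x = 1 ∧
      ∀ (s a : ℕ) (c : Circuit (Sym2 (Fin v) ⊕ (Fin a × Bool)) s) (o : Fin s), s < 2 ^ w →
        (∀ j, Fed c j → ∀ (x : Sym2 (Fin v) → Bool) (y y' : Fin a → Bool),
          val c (withGuess x y) j = val c (withGuess x y') j) →
        ∃ x : ℕ → (Sym2 (Fin v) → Bool), Monotone x ∧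
          (v : ℝ) ^ 2 * ∑ z, D z * (if ((∀ y, val c (withGuess z y) o = true) ↔
              ¬ (SimpleGraph.fromEdgeSet {e | z e = true}).CliqueFree k) then 1 else -1) <
            2 ^ 33 * (Set.range fun i => pattern c (withGuess (x i) fun _ => false)).ncard *
              (a + w + 1) * (w + 1) ^ 2 * (Nat.log 2 v + 1) ^ 7 := by
  obtain ⟨D, hD, h⟩ := AV.main_rec v k w hv hk hkv
  refine ⟨D, hD.nonneg, hD.sum, fun s a c o hs hfree => ?_⟩
  -- a sequence with the largest number of patterns
  let A : Set ℕ := {n | ∃ x : ℕ → (Sym2 (Fin v) → Bool), Monotone x ∧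
    (Set.range fun i => pattern c (withGuess (x i) fun _ => false)).ncard = n}
  have hA1 : A.Nonempty := ⟨_, fun _ _ => true, monotone_const, rfl⟩
  have hA2 : BddAbove A := by
    refine ⟨Nat.card ({j : Fin s // Fed c j} → Bool), ?_⟩
    rintro n ⟨x, _, rfl⟩
    exact Set.ncard_le_card _
  obtain ⟨x, hx, hxn⟩ := Nat.sSup_mem hA1 hA2
  have hP : ∀ z : ℕ → (Sym2 (Fin v) → Bool), Monotone z →
      (Set.range (fun i => pattern c (withGuess (z i) fun _ => false))).ncard ≤
        (Set.range fun i => pattern c (withGuess (x i) fun _ => false)).ncard := by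
    intro z hz
    rw [hxn]
    exact le_csSup hA2 ⟨z, hz, rfl⟩
  have hP1 : 1 ≤ (Set.range fun i => pattern c (withGuess (x i) fun _ => false)).ncard := by
    have h1 := hP (fun _ _ => true) monotone_const
    rw [Set.range_const, Set.ncard_singleton] at h1
    exact h1
  have key := h s a _ c o hs hfree hP1 hP
  refine ⟨x, hx, ?_⟩
  rw [AV.adv_eq hD.sum] at key
  convert key

end Pool.Agent.Results.MP_71c844_lc.CliqueAverage
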