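import Pool.Agent.Work.MP_71c844_lc.FormCore
import Pool.Agent.Work.MP_71c844_lc.RecFamily

namespace Pool.Agent.Results.MP_71c844_lc.CliqueFormulas

open Pool.Agent.LayCirc

/-- **NOT gates and mixing gates of formulas and circuits for CLIQUE.** Let `2 ≤ v` and
`600 (w+1) (log₂ v + 1)^4 ≤ k ≤ v / 2`. Consider a circuit with fewer than `2 ^ w` AND and OR gates
(of fan-in two) and with arbitrary further gates of any fan-in, for example NOT gates, that decides
whether a graph on `v` vertices has a clique on `k` vertices. Suppose that it has at most `m`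
mixing gates (AND and OR gates both of whose inputs depend on arbitrary gates), or that it has at
most `m` arbitrary gates and each gate that depends on an arbitrary gate is read at most once (for
example a formula with at most `m` NOT gates). Then the number of inputs of the arbitrary gates
plus `m + 1` is larger than `v ^ 2 / (2^35 (w+1)^3 (log₂ v + 1)^7)`. -/
theorem result (v k w s m : ℕ) (hv : 2 ≤ v)
    (hk : 600 * (w + 1) * (Nat.log 2 v + 1) ^ 4 ≤ k) (hkv : 2 * k ≤ v)
    (c : Circuit (Sym2 (Fin v)) s) (o : Fin s) (hs : size c < 2 ^ w)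
    (hm : numMixing c ≤ m ∨ (FormulaLike c ∧ numArb c ≤ m))
    (hc : ∀ x : Sym2 (Fin v) → Bool, val c x o = true ↔
      ¬ (SimpleGraph.fromEdgeSet {e | x e = true}).CliqueFree k) :
    v ^ 2 < 2 ^ 35 * (wires c + m + 1) * (w + 1) ^ 3 * (Nat.log 2 v + 1) ^ 7 := by
  classical
  have hm' : numMixing c ≤ m := by
    rcases hm with h | ⟨hF, h⟩
    · exact h
    · exact (numMixing_le c hF).trans h
  -- the family of monotone functions
  let T : Type := {i : Fin s // i ∈ tgt c o} × Bool
  have hT : Fintype.card T + 1 ≤ 4 * (wires c + m + 1) := by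
    have h1 := card_tgt c o
    have h2 : Fintype.card T = (tgt c o).card * 2 := by
      rw [Fintype.card_prod, Fintype.card_coe, Fintype.card_bool]
    rw [h2]
    omega
  have key := rec_family (T := T) hv hk hkv
    (fun t => mono c t.1.1 t.2) (fun t => numNot_mono _ _ _)
    (fun t => (size_mono c t.1.1 t.2).trans_lt hs) (by
      intro x y h
      have hdet := det c o x y (by
        intro i hi b'
        have h1 := h (⟨i, hi⟩, b')
        rwa [output_mono, output_mono] at h1)
      rw [← hc x, ← hc y, hdet])
  calc v ^ 2 < 2 ^ 33 * (Fintype.card T + 1) * (w + 1) ^ 3 * (Nat.log 2 v + 1) ^ 7 := key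
    _ ≤ 2 ^ 33 * (4 * (wires c + m + 1)) * (w + 1) ^ 3 * (Nat.log 2 v + 1) ^ 7 := by
        gcongr
    _ = 2 ^ 35 * (wires c + m + 1) * (w + 1) ^ 3 * (Nat.log 2 v + 1) ^ 7 := by ring

end Pool.Agent.Results.MP_71c844_lc.CliqueFormulas
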