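import Pool.Agent.Work.MP_71c844_lc.GR.AllB

namespace Pool.Agent.Results.MP_71c844_lc.CliqueGap

open Pool.Agent.LayCirc

/-- **NOT gates of circuits and formulas that approximate the clique number.** Let `2 ≤ v`,
`1 ≤ s`, `1 ≤ w`, `(log₂ v + 1) (64 (w + 1) ^ 2) ^ D ≤ k` and
`v ^ 12 * (2 ^ 10 s k (w + 1) ^ 2 (log₂ v + 1)) ^ D ≤ v ^ D`. Consider a circuit with fewer than
`2 ^ w` gates whose inputs are the pairs of the `v` vertices, with fan-in-two AND and OR gates,
constants, and arbitrary further gates of any fan-in (for example NOT gates), that accepts every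
graph with a clique on `s` vertices and rejects every graph without a clique on `k` vertices. Let
`M` be a bound for the number of different values that the vector of the values of the gates read
by arbitrary gates takes along an increasing sequence of inputs, or for the number of inputs of the
arbitrary gates plus the number of mixing gates plus one (or, if each gate that depends on an
arbitrary gate is read at most once, plus the number of arbitrary gates plus one). Then
`v ^ 2 < 2 ^ 28 * M * s ^ 2 * k * (w + 1) ^ 4 * (log₂ v + 1) ^ 3`. -/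
theorem result (v s k w D M S : ℕ) (hv : 2 ≤ v) (hs : 1 ≤ s) (hw : 1 ≤ w)
    (hk : (Nat.log 2 v + 1) * (64 * (w + 1) ^ 2) ^ D ≤ k)
    (hD : v ^ 12 * (2 ^ 10 * s * k * (w + 1) ^ 2 * (Nat.log 2 v + 1)) ^ D ≤ v ^ D)
    (c : Circuit (Sym2 (Fin v)) S) (o : Fin S) (hS : S < 2 ^ w)
    (hM : (∀ x : ℕ → (Sym2 (Fin v) → Bool), Monotone x →
        (Set.range fun i => pattern c (x i)).ncard ≤ M) ∨
      wires c + numMixing c + 1 ≤ M ∨ (FormulaLike c ∧ wires c + numArb c + 1 ≤ M))
    (hyes : ∀ x : Sym2 (Fin v) → Bool,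
      ¬ (SimpleGraph.fromEdgeSet {e | x e = true}).CliqueFree s → val c x o = true)
    (hno : ∀ x : Sym2 (Fin v) → Bool,
      (SimpleGraph.fromEdgeSet {e | x e = true}).CliqueFree k → val c x o = false) :
    v ^ 2 < 2 ^ 28 * M * s ^ 2 * k * (w + 1) ^ 4 * (Nat.log 2 v + 1) ^ 3 :=
  GR.gap_mainB GR.itemsB v s k w D M S hv hs hw hk hD c o hS hM hyes hno

end Pool.Agent.Results.MP_71c844_lc.CliqueGap
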