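import Pool.Agent.Work.MP_71c844_lc.GapChain

namespace Pool.Agent.Work.MP_71c844_lc.Kept.CliqueInapprox

open Pool.Agent.NegLim Pool.Agent.GapLim Finset

section planted

variable {n q : ℕ} {V : Type*} [DecidableEq V]

/-- The planted set: one vertex in each of the `n` blocks. -/
def planted (ι : Fin n × Fin q ↪ V) (u : Fin n → Fin q) : Finset V :=
  univ.image (fun i => ι (i, u i))

lemma card_planted (ι : Fin n × Fin q ↪ V) (u : Fin n → Fin q) : (planted ι u).card = n := by
  unfold planted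
  rw [Finset.card_image_of_injective, Finset.card_univ, Fintype.card_fin]
  intro i j hij
  have := ι.injective hij
  rw [Prod.mk.injEq] at this
  exact this.1

open Classical in
lemma spread (hq : 1 ≤ q) (ι : Fin n × Fin q ↪ V) (A : Finset V) :
    ((univ.filter (fun u : Fin n → Fin q => A ⊆ planted ι u)).card : ℝ) ≤
      Fintype.card (Fin n → Fin q) * (1 / (q : ℝ)) ^ A.card := by
  by_cases hex : ∃ u₀ : Fin n → Fin q, A ⊆ planted ι u₀
  · obtain ⟨u₀, hu₀⟩ := hex
    set I : Finset (Fin n) := univ.filter (fun i => ι (i, u₀ i) ∈ A) with hI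
    have hIcard : I.card = A.card := by
      apply Finset.card_bij (fun i _ => ι (i, u₀ i))
      · intro i hi
        rw [hI, Finset.mem_filter] at hi
        exact hi.2
      · intro i _ j _ hij
        have := ι.injective hij
        rw [Prod.mk.injEq] at this
        exact this.1
      · intro a ha
        have h1 := hu₀ ha
        rw [planted, Finset.mem_image] at h1
        obtain ⟨i, -, hi⟩ := h1
        exact ⟨i, by rw [hI, Finset.mem_filter]; exact ⟨mem_univ _, by rw [hi]; exact ha⟩, hi⟩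
    have hAn : A.card ≤ n := by
      rw [← hIcard]
      exact (Finset.card_le_univ I).trans_eq (Fintype.card_fin n)
    have hsub : univ.filter (fun u : Fin n → Fin q => A ⊆ planted ι u) ⊆
        Fintype.piFinset (fun i => if i ∈ I then ({u₀ i} : Finset (Fin q)) else univ) := by
      intro u hu
      rw [Finset.mem_filter] at hu
      rw [Fintype.mem_piFinset]
      intro i
      split_ifs with hi
      · rw [hI, Finset.mem_filter] at hi
        have h1 := hu.2 hi.2
        rw [planted, Finset.mem_image] at h1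
        obtain ⟨j, -, hj⟩ := h1
        have := ι.injective hj
        rw [Prod.mk.injEq] at this
        obtain ⟨rfl, h2⟩ := this
        rw [Finset.mem_singleton]; exact h2
      · exact mem_univ _
    have hcard : (Fintype.piFinset
        (fun i => if i ∈ I then ({u₀ i} : Finset (Fin q)) else univ)).card = q ^ (n - A.card) := by
      rw [Fintype.card_piFinset]
      have : ∀ i : Fin n, (if i ∈ I then ({u₀ i} : Finset (Fin q)) else univ).card =
          if i ∈ univ \ I then q else 1 := by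
        intro i
        by_cases hi : i ∈ I
        · simp [hi]
        · simp [hi]
      simp_rw [this]
      rw [Finset.prod_ite_mem, Finset.univ_inter, Finset.prod_const,
        Finset.card_sdiff_of_subset (Finset.subset_univ I), Finset.card_univ, Fintype.card_fin,
        hIcard]
    have h1 : (univ.filter (fun u : Fin n → Fin q => A ⊆ planted ι u)).card ≤
        q ^ (n - A.card) := by
      rw [← hcard]; exact Finset.card_le_card hsub
    have h2 : ((univ.filter (fun u : Fin n → Fin q => A ⊆ planted ι u)).card : ℝ) ≤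
        (q : ℝ) ^ (n - A.card) := by exact_mod_cast h1
    refine h2.trans (le_of_eq ?_)
    have hq' : (q : ℝ) ≠ 0 := by
      have : (1 : ℝ) ≤ q := by exact_mod_cast hq
      linarith
    rw [Fintype.card_fun, Fintype.card_fin, Fintype.card_fin, pow_sub₀ _ hq' hAn, one_div, inv_pow]
    push_cast
    rfl
  · have : univ.filter (fun u : Fin n → Fin q => A ⊆ planted ι u) = ∅ := by
      rw [Finset.filter_eq_empty_iff]
      intro u _ hu
      exact hex ⟨u, hu⟩
    rw [this, Finset.card_empty, Nat.cast_zero]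
    positivity

end planted

lemma gr_colorable {v κ : ℕ} (hκ : 1 ≤ κ) (x : St (Fin v) (Fin κ)) :
    (SimpleGraph.fromEdgeSet (gr x : Set (Sym2 (Fin v)))).Colorable κ := by
  refine ⟨SimpleGraph.Coloring.mk (fun a => (x a).getD ⟨0, hκ⟩) ?_⟩
  intro a b hab
  rw [SimpleGraph.fromEdgeSet_adj] at hab
  obtain ⟨h, -⟩ := hab
  rw [Finset.mem_coe, mem_gr] at h
  obtain ⟨a', b', heq, ha, hb, hne⟩ := h
  obtain ⟨c, hc⟩ := Option.ne_none_iff_exists'.mp ha
  obtain ⟨d, hd⟩ := Option.ne_none_iff_exists'.mp hb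
  have hcd : c ≠ d := by rw [hc, hd] at hne; simpa using hne
  rw [Sym2.eq_iff] at heq
  rcases heq with ⟨rfl, rfl⟩ | ⟨rfl, rfl⟩
  · rw [hc, hd]; simpa using hcd
  · rw [hc, hd]; simpa using hcd.symm

lemma mem_edgeSet_iff {v : ℕ} (E : Finset (Sym2 (Fin v))) (hE : ∀ e ∈ E, ¬ e.IsDiag)
    (e : Sym2 (Fin v)) :
    e ∈ (SimpleGraph.fromEdgeSet (E : Set (Sym2 (Fin v)))).edgeSet ↔ e ∈ E := by
  rw [SimpleGraph.edgeSet_fromEdgeSet]
  constructor
  · intro h; exact h.1
  · intro h; exact ⟨h, hE e h⟩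

lemma gr_not_diag {v κ : ℕ} (x : St (Fin v) (Fin κ)) : ∀ e ∈ gr x, ¬ e.IsDiag := by
  intro e he
  rw [mem_gr] at he
  obtain ⟨a, b, rfl, -, -, hne⟩ := he
  rw [Sym2.mk_isDiag_iff]
  rintro rfl
  exact hne rfl

lemma cl_not_diag {v : ℕ} (S : Finset (Fin v)) : ∀ e ∈ cl S, ¬ e.IsDiag := by
  intro e he
  rw [mem_cl] at he
  obtain ⟨a, b, rfl, -, -, hne⟩ := he
  rw [Sym2.mk_isDiag_iff]
  exact hne

open Classical in
/-- **Inapproximability of CLIQUE by circuits with few NOT gates.** Let `c` be a Boolean circuit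
with at most `t` NOT gates, whose inputs are the pairs of the `v` vertices. Suppose that `c`
accepts every graph with a clique on `s` vertices and rejects every `κ`-colourable graph. If
`64 (w + 1) ^ 2 ≤ κ` and `2 ^ (t + 20) s (w + 1) ^ 2 (log₂ v + 1) ^ 2 ≤ v`, then `c` has at least
`2 ^ w` AND and OR gates. -/
theorem result (v s κ w t : ℕ) (hw : 1 ≤ w) (hκ : 64 * (w + 1) ^ 2 ≤ κ)
    (h : 2 ^ (t + 20) * s * (w + 1) ^ 2 * (Nat.log 2 v + 1) ^ 2 ≤ v)
    (c : List (Gate (Sym2 (Fin v)))) (hnot : numNot c ≤ t)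
    (hyes : ∀ G : SimpleGraph (Fin v), ¬ G.CliqueFree s →
      output c (fun e => decide (e ∈ G.edgeSet)) = true)
    (hno : ∀ G : SimpleGraph (Fin v), G.Colorable κ →
      output c (fun e => decide (e ∈ G.edgeSet)) = false) :
    2 ^ w ≤ size c := by
  by_contra hcon
  push Not at hcon
  obtain ⟨L, hL⟩ : ∃ L, L = Nat.log 2 v + 1 := ⟨_, rfl⟩
  obtain ⟨b, hb⟩ : ∃ b, b = w + 1 := ⟨_, rfl⟩
  rw [← hL, ← hb] at h
  rw [← hb] at hκ
  have hb2 : 2 ≤ b := by omega
  have hL1 : 1 ≤ L := by omega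
  have hvL : v < 2 ^ L := by rw [hL]; exact Nat.lt_pow_succ_log_self (by norm_num) v
  have hκ1 : 1 ≤ 64 * b ^ 2 := by
    have : 0 < b ^ 2 := by positivity
    omega
  -- `s` is positive
  have hs : 1 ≤ s := by
    by_contra hs
    have hs0 : s = 0 := by omega
    subst hs0
    have e1 := hno ⊥ (by
      have : (⊥ : SimpleGraph (Fin v)).Colorable 1 :=
        ⟨SimpleGraph.Coloring.mk (fun _ => 0) (by intro a b hab; exact absurd hab (by simp))⟩
      exact this.mono (by omega))
    have e2 := hyes ⊥ (by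
      intro hfree
      apply hfree ∅
      exact ⟨by simp [SimpleGraph.IsClique], by simp⟩)
    rw [e1] at e2; cases e2
  have hb2' : 1 ≤ b ^ 2 := Nat.one_le_pow _ _ (by omega)
  have hL2' : 1 ≤ L ^ 2 := Nat.one_le_pow _ _ (by omega)
  -- `t` is small
  have ht : t + 20 < L := by
    have e1 : 2 ^ (t + 20) ≤ v := by
      calc 2 ^ (t + 20) = 2 ^ (t + 20) * 1 * 1 * 1 := by ring
        _ ≤ 2 ^ (t + 20) * s * b ^ 2 * L ^ 2 :=
          Nat.mul_le_mul (Nat.mul_le_mul (Nat.mul_le_mul le_rfl hs) hb2') hL2'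
        _ ≤ v := h
    exact (Nat.pow_lt_pow_iff_right (by norm_num)).mp (lt_of_le_of_lt e1 hvL)
  -- parameters
  obtain ⟨J, hJ⟩ : ∃ J, J = Nat.log 2 L + 10 := ⟨_, rfl⟩
  have hlogL : Nat.log 2 L < L := Nat.log_lt_self 2 (by omega)
  have hJ1 : 2 ^ J ≤ 1024 * L := by
    rw [hJ, pow_add, mul_comm]
    exact Nat.mul_le_mul (by norm_num) (Nat.pow_log_le_self 2 (by omega))
  have hJ2 : 512 * L < 2 ^ J := by
    have e1 : L < 2 ^ (Nat.log 2 L + 1) := Nat.lt_pow_succ_log_self (by norm_num) L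
    have e2 : 2 ^ J = 512 * 2 ^ (Nat.log 2 L + 1) := by rw [hJ]; ring
    rw [e2]
    exact Nat.mul_lt_mul_of_pos_left e1 (by norm_num)
  obtain ⟨K, hK⟩ : ∃ K, K = t + J := ⟨_, rfl⟩
  have hK1 : 1 ≤ K := by omega
  have hK2 : K ≤ 2 * L := by omega
  obtain ⟨R, hR⟩ : ∃ R, R = K + w + 4 * b * L := ⟨_, rfl⟩
  have hR1 : 1 ≤ R := by omega
  have hR2 : R ≤ 6 * b * L := by
    have e1 : 2 * L ≤ b * L := Nat.mul_le_mul_right _ hb2
    have e2 : b ≤ b * L := Nat.le_mul_of_pos_right _ (by omega)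
    have e3 : 6 * b * L = b * L + b * L + 4 * b * L := by ring
    omega
  obtain ⟨q, hq⟩ : ∃ q, q = 32 * b * R * 2 ^ K := ⟨_, rfl⟩
  have hq1 : 1 ≤ q := by
    rw [hq]
    have : 0 < 32 * b * R * 2 ^ K := by positivity
    omega
  have hqv : 4 * s * q ≤ v := by
    refine le_trans ?_ h
    have e1 : 2 ^ K = 2 ^ t * 2 ^ J := by rw [hK, pow_add]
    calc 4 * s * q = 4 * s * (32 * b * R * (2 ^ t * 2 ^ J)) := by rw [hq, e1]
      _ ≤ 4 * s * (32 * b * (6 * b * L) * (2 ^ t * (1024 * L))) := by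
          apply Nat.mul_le_mul_left
          exact Nat.mul_le_mul (Nat.mul_le_mul_left _ hR2) (Nat.mul_le_mul_left _ hJ1)
      _ = 786432 * (2 ^ t * s * b ^ 2 * L ^ 2) := by ring
      _ ≤ 1048576 * (2 ^ t * s * b ^ 2 * L ^ 2) := Nat.mul_le_mul_right _ (by norm_num)
      _ = 2 ^ (t + 20) * s * b ^ 2 * L ^ 2 := by rw [pow_add]; ring
  obtain ⟨ι⟩ : Nonempty (Fin (4 * s) × Fin q ↪ Fin v) :=
    Function.Embedding.nonempty_of_card_le (by
      rw [Fintype.card_prod, Fintype.card_fin, Fintype.card_fin, Fintype.card_fin]; exact hqv)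
  have hκv : 64 * b ^ 2 + 1 ≤ 2 ^ L := by
    have e1 : 64 * b ^ 2 ≤ v := by
      calc 64 * b ^ 2 ≤ 2 ^ (t + 20) * b ^ 2 := by
            apply Nat.mul_le_mul_right
            calc 64 ≤ 2 ^ 20 := by norm_num
              _ ≤ 2 ^ (t + 20) := Nat.pow_le_pow_right (by norm_num) (by omega)
        _ = 2 ^ (t + 20) * 1 * b ^ 2 * 1 := by ring
        _ ≤ 2 ^ (t + 20) * s * b ^ 2 * L ^ 2 :=
          Nat.mul_le_mul (Nat.mul_le_mul (Nat.mul_le_mul le_rfl hs) le_rfl) hL2'
        _ ≤ v := h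
    omega
  have : Nonempty (Fin (64 * b ^ 2)) := ⟨⟨0, hκ1⟩⟩
  have : Nonempty (Fin (4 * s) → Fin q) := ⟨fun _ => ⟨0, hq1⟩⟩
  have key := main_gap (V := Fin v) (C := Fin (64 * b ^ 2)) (U := Fin (4 * s) → Fin q)
    (b := b) (K := K) (R := R) (s := s) (q := (q : ℝ)) (Y := planted ι) hb2 hK1 hR1 hs
    (by rw [Fintype.card_fin]) (by rw [hq]; push_cast; exact le_rfl)
    (fun A _ => by convert spread hq1 ι A) (fun u => card_planted ι u) c ?_ ?_ ?_ ?_
  · -- contradiction
    have e1 : 2 ^ numNot c ≤ 2 ^ t := Nat.pow_le_pow_right (by norm_num) hnot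
    have e2 : 2 ^ t * 2 ^ J ≤ 2 ^ t * (264 * L) := by
      calc 2 ^ t * 2 ^ J = 2 ^ K := by rw [hK, pow_add]
        _ ≤ 2 ^ numNot c * (132 * K) := key
        _ ≤ 2 ^ t * (132 * (2 * L)) := Nat.mul_le_mul e1 (Nat.mul_le_mul_left _ hK2)
        _ = 2 ^ t * (264 * L) := by ring
    have e3 : 2 ^ J ≤ 264 * L := Nat.le_of_mul_le_mul_left e2 (by positivity)
    omega
  · intro x
    have := hno (SimpleGraph.fromEdgeSet (gr x : Set (Sym2 (Fin v))))
      ((gr_colorable hκ1 x).mono hκ)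
    rw [← this]
    congr 1
    funext e
    exact decide_eq_decide.mpr (mem_edgeSet_iff (gr x) (gr_not_diag x) e).symm
  · intro x u hu
    obtain ⟨T, hT, hTs⟩ := Finset.exists_subset_card_eq hu
    have := hyes (SimpleGraph.fromEdgeSet
      ((gr x ∪ cl (fresh x (planted ι u)) : Finset (Sym2 (Fin v))) : Set (Sym2 (Fin v)))) (by
      intro hfree
      apply hfree T
      refine ⟨?_, hTs⟩
      intro a ha a' ha' hne
      rw [SimpleGraph.fromEdgeSet_adj]
      refine ⟨?_, hne⟩
      rw [Finset.mem_coe, Finset.mem_union]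
      right
      rw [mem_cl]
      exact ⟨a, a', rfl, hT ha, hT ha', hne⟩)
    rw [← this]
    congr 1
    funext e
    refine decide_eq_decide.mpr (mem_edgeSet_iff _ ?_ e).symm
    intro e he
    rw [Finset.mem_union] at he
    rcases he with he | he
    · exact gr_not_diag x e he
    · exact cl_not_diag _ e he
  · exact hcon.le.trans (Nat.pow_le_pow_right (by norm_num) (by omega))
  · have e1 : (lowSets (Fin v) b).card ≤ 2 ^ (L * (2 * b)) := by
      refine (card_lowSets_le b).trans ?_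
      rw [Fintype.card_fin, pow_mul 2 L]
      exact Nat.pow_le_pow_left (by omega) _
    have e2 : (lowSets (Fin (64 * b ^ 2)) b).card ≤ 2 ^ (L * (2 * b)) := by
      refine (card_lowSets_le b).trans ?_
      rw [Fintype.card_fin, pow_mul 2 L]
      exact Nat.pow_le_pow_left hκv _
    have e3 : size c + 1 ≤ 2 ^ w := hcon
    calc 2 ^ K * (size c + 1) * ((lowSets (Fin v) b).card * (lowSets (Fin (64 * b ^ 2)) b).card)
        ≤ 2 ^ K * 2 ^ w * (2 ^ (L * (2 * b)) * 2 ^ (L * (2 * b))) :=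
          Nat.mul_le_mul (Nat.mul_le_mul_left _ e3) (Nat.mul_le_mul e1 e2)
      _ = 2 ^ (K + w + (L * (2 * b) + L * (2 * b))) := by rw [pow_add, pow_add, pow_add]
      _ = 2 ^ R := by rw [hR]; congr 1; ring

end Pool.Agent.Work.MP_71c844_lc.Kept.CliqueInapprox
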