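import Pool.Agent.Work.MP_71c844_lc.RecParams

namespace Pool.Agent.Results.MP_71c844_lc.CliqueRecord

open Pool.Agent.LayCirc

/-- **Size, patterns and guess bits of circuits for CLIQUE.** Let `2 ≤ v` and
`600 (w + 1) (log₂ v + 1) ^ 4 ≤ k ≤ v / 2`. Consider a circuit with fewer than `2 ^ w` gates whose
inputs are the pairs `x` of the `v` vertices and the literals of `a` guess bits `y`, with fan-in-two
AND and OR gates and with arbitrary further gates (of any fan-in, for example NOT gates) that read
only gates whose values do not depend on the guess. Suppose that a graph `x` has a clique on `k`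
vertices if and only if the circuit accepts `(x, y)` for all guesses `y`. Then there is an
increasing sequence of graphs such that the number `P` of different values which the vector of the
values of the gates read by NOT gates (by arbitrary gates) takes along the sequence satisfies
`v ^ 2 < 2 ^ 33 * P * (a + w + 1) * (w + 1) ^ 2 * (log₂ v + 1) ^ 7`. -/
theorem result (v k w s a : ℕ) (hv : 2 ≤ v)
    (hk : 600 * (w + 1) * (Nat.log 2 v + 1) ^ 4 ≤ k) (hkv : 2 * k ≤ v) (hs : s < 2 ^ w)
    (c : Circuit (Sym2 (Fin v) ⊕ (Fin a × Bool)) s) (o : Fin s)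
    (hfree : ∀ j, Fed c j → ∀ (x : Sym2 (Fin v) → Bool) (y y' : Fin a → Bool),
      val c (withGuess x y) j = val c (withGuess x y') j)
    (hc : ∀ x : Sym2 (Fin v) → Bool, (∀ y, val c (withGuess x y) o = true) ↔
      ¬ (SimpleGraph.fromEdgeSet {e | x e = true}).CliqueFree k) :
    ∃ x : ℕ → (Sym2 (Fin v) → Bool), Monotone x ∧
      v ^ 2 < 2 ^ 33 * (Set.range fun i => pattern c (withGuess (x i) fun _ => false)).ncard *
        (a + w + 1) * (w + 1) ^ 2 * (Nat.log 2 v + 1) ^ 7 := by
  -- a sequence with the largest number of patterns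
  let A : Set ℕ := {n | ∃ x : ℕ → (Sym2 (Fin v) → Bool), Monotone x ∧
    (Set.range fun i => pattern c (withGuess (x i) fun _ => false)).ncard = n}
  have hA1 : A.Nonempty := ⟨_, fun _ _ => true, monotone_const, rfl⟩
  have hA2 : BddAbove A := by
    refine ⟨Nat.card ({j : Fin s // Fed c j} → Bool), ?_⟩
    rintro n ⟨x, _, rfl⟩
    exact Set.ncard_le_card _
  obtain ⟨x, hx, hxn⟩ := Nat.sSup_mem hA1 hA2
  have hP : ∀ z : ℕ → (Sym2 (Fin v) → Bool), Monotone z →
      (Set.range (fun i => pattern c (withGuess (z i) fun _ => false))).ncard ≤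
        (Set.range fun i => pattern c (withGuess (x i) fun _ => false)).ncard := by
    intro z hz
    rw [hxn]
    exact le_csSup hA2 ⟨z, hz, rfl⟩
  have hP1 : 1 ≤ (Set.range fun i => pattern c (withGuess (x i) fun _ => false)).ncard := by
    have h1 := hP (fun _ _ => true) monotone_const
    rw [Set.range_const, Set.ncard_singleton] at h1
    exact h1
  have hL2 : 2 ≤ Nat.log 2 v + 1 := by
    have : 1 ≤ Nat.log 2 v := Nat.log_pos (by norm_num) hv
    omega
  have hvL : v < 2 ^ (Nat.log 2 v + 1) := Nat.lt_pow_succ_log_self (by norm_num) v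
  have hS : 2 * s < 2 ^ (w + 1) := by
    rw [pow_succ]
    omega
  exact ⟨x, hx, rec_regime (by omega) hL2 hvL hk hkv hS c o hfree hc hP1 hP⟩

end Pool.Agent.Results.MP_71c844_lc.CliqueRecord
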