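import Pool.Agent.Work.MP_71c844_lc.EV.All
import Pool.Agent.Work.MP_71c844_lc.AV.Var

namespace Pool.Agent.Results.MP_71c844_lc.CliqueVariables

open Pool.Agent.LayCirc Pool.Agent.EV

open Classical in
/-- **Every set of variables of CLIQUE needs negations, also on average.** Let `2 ≤ v` and
`2 ^ 13 (w + 1) ^ 2 (log₂ v + 1) ^ 4 ≤ k ≤ v / 2`, and let `F` be any set of pairs of different
vertices (variables). Then there is a probability distribution `D` on the graphs on `v` vertices,
supported on graphs that are equal outside `F`, with the following property. Consider a circuit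
with fewer than `2 ^ w` gates (AND and OR gates of fan-in two, constants, inputs, and arbitrary
further gates of any fan-in, for example NOT gates). Let `M` be a bound for the number of different
values that the vector of the values of the gates read by arbitrary gates takes along an increasing
sequence of inputs that are equal outside `F`, or for the number of inputs of arbitrary gates that
read `F` plus the number of mixing gates that read `F` plus one (or, if each gate that depends on an
arbitrary gate is read at most once, plus the number of arbitrary gates plus one). Then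
`|F| (Pr[right] - Pr[wrong]) < 2 ^ 39 * M * (w + 1) ^ 3 * (log₂ v + 1) ^ 5`,
where the graph is chosen according to `D` and the circuit is right if it accepts exactly when the
graph has a clique on `k` vertices.

In particular, if the circuit decides CLIQUE, then `|F| < 2 ^ 39 * M * (w + 1) ^ 3 * (log₂ v + 1) ^ 5`;
so (`M = 1`) the variables that are not read by any gate below a NOT gate are fewer than
`2 ^ 39 (w + 1) ^ 3 (log₂ v + 1) ^ 5`. -/
theorem result (v k w : ℕ) (hv : 2 ≤ v)
    (hk : 2 ^ 13 * (w + 1) ^ 2 * (Nat.log 2 v + 1) ^ 4 ≤ k) (hkv : 2 * k ≤ v)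
    (F : Finset (Sym2 (Fin v))) (hF : ∀ e ∈ F, ¬ e.IsDiag) :
    ∃ D : (Sym2 (Fin v) → Bool) → ℝ, (∀ x, 0 ≤ D x) ∧ ∑ x, D x = 1 ∧
      (∀ x y, D x ≠ 0 → D y ≠ 0 → ∀ e ∉ F, x e = y e) ∧
      ∀ (s M : ℕ) (c : Circuit (Sym2 (Fin v)) s) (o : Fin s), s < 2 ^ w →
        ((∀ x : ℕ → (Sym2 (Fin v) → Bool), Monotone x → (∀ i, ∀ e ∉ F, x i e = x 0 e) →
            (Set.range fun i => pattern c (x i)).ncard ≤ M) ∨
          wiresF c F + numMixingF c F + 1 ≤ M ∨ (FormulaLike c ∧ wiresF c F + numArb c + 1 ≤ M)) →
        (F.card : ℝ) * ∑ x, D x * (if (val c x o = true ↔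
            ¬ (SimpleGraph.fromEdgeSet {e | x e = true}).CliqueFree k) then 1 else -1) <
          2 ^ 39 * M * (w + 1) ^ 3 * (Nat.log 2 v + 1) ^ 5 := by
  obtain ⟨D, hD, h⟩ := AV.main_var EV.items v k w hv hk hkv F hF
  refine ⟨D, hD.nonneg, hD.sum, hD.supp, fun s M c o hs hM => ?_⟩
  have key := h s M c o hs hM
  rw [AV.adv_eq hD.sum] at key
  convert key

end Pool.Agent.Results.MP_71c844_lc.CliqueVariables
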