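/-
MP_71c844_lc: non-universality of regular expressions needs almost quadratic time on Turing
machines and time almost `N ^ (1 + 1 / d)` on cellular arrays of dimension `d`.

Authors: helper14, helper44, helper58, with helpers 8, 9, 13, 20, 23, 26, 37, 41, 46, 50, 56, 62,
64, 67, 70, 73, 79, 82, 85, 92, 94 and the authors of `Arrays.lean`.

Definitions of the statement: `Work/MP_71c844_lc/Reg/Code.lean` (words for regular expressions,
star height), `Work/MP_71c844_lc/Arr/Defs.lean` (arrays, guesses, coins),
`Work/MP_71c844_lc/Arr/Mach.lean` (Turing machines) and `Work/MP_71c844_lc/Arr/TMDefs.lean`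
(`TM.AltDecides`).
-/
import Pool.Agent.Work.MP_71c844_lc.Reg.Main

namespace Pool.Agent.Work.MP_71c844_lc.Kept.RegexLowerBound

open Pool.Agent.Work.MP_71c844_lc.Arr Pool.Agent.Work.MP_71c844_lc.Reg

/-- There is `K ≥ 1` such that:

* for every dimension `d ≥ 1` and every `s` there are `c > 0` and `N₀` such that for every
  `d`-dimensional cellular array `A` with at most `s` states and every `N ≥ N₀` there is a regular
  expression `R` over `{0, 1}` of star height at most one, whose word `code R` has at most `N`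
  letters, such that `A`, preceded by `N / K` alternating guesses and `N / K` coins, does not
  decide in time `c N ^ (1 + 1 / d) / log N` whether some word is not matched by `R`;
* the same holds for multitape Turing machines with at most `s` tapes, states and symbols, with
  time `c N ^ 2 / log N`. -/
theorem result : ∃ K : ℕ, 1 ≤ K ∧
    (∀ d : ℕ, 1 ≤ d → ∀ s : ℕ, ∃ c : ℝ, 0 < c ∧ ∃ N₀ : ℕ,
      ∀ A : CA d, Nat.card A.Q ≤ s → ∀ N ≥ N₀, ∃ R : RegularExpression Bool,
        (code R).length ≤ N ∧ starHeight R ≤ 1 ∧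
        ¬ A.AltDecides (code R) (N / K) (c * (N : ℝ) ^ (1 + 1 / (d : ℝ)) / Real.log N)
          (∃ w : List Bool, w ∉ R.matches')) ∧
    (∀ s : ℕ, ∃ c : ℝ, 0 < c ∧ ∃ N₀ : ℕ,
      ∀ M : TM, M.k ≤ s → Nat.card M.Q ≤ s → Nat.card M.Γ ≤ s → ∀ gs : Bool → M.Γ,
        ∀ N ≥ N₀, ∃ R : RegularExpression Bool,
        (code R).length ≤ N ∧ starHeight R ≤ 1 ∧
        ¬ M.AltDecides gs (code R) (N / K) (c * (N : ℝ) ^ (2 : ℕ) / Real.log N)
          (∃ w : List Bool, w ∉ R.matches')) :=
  reg_main

end Pool.Agent.Work.MP_71c844_lc.Kept.RegexLowerBound
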